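import Pool.Agent.Lib.MP_b76bf9_an.Stmt

/-! # MP_b76bf9_an: the derivatives of order `k` suffice (helper4) -/

set_option autoImplicit false

open MeasureTheory
open scoped ENNReal

namespace WkInf

/-- The approximation condition of Q1 for the set `K`. -/
def ApproxOn {n k : ℕ} {S : Submodule ℝ (Tup n k)} (K : Set (Sp S)) : Prop :=
  ∀ ε : ℝ, 0 < ε → ∃ T : Sp S →L[ℝ] Sp S, FinRank T ∧ ∀ u ∈ K, ‖T u - u‖ < ε

/-- The same, but only for the derivatives of order `k`. -/
def TopApproxOn {n k : ℕ} {S : Submodule ℝ (Tup n k)} (K : Set (Sp S)) : Prop :=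
  ∀ ε : ℝ, 0 < ε → ∃ T : Sp S →L[ℝ] Sp S, FinRank T ∧
    ∀ α : Mi n k, order α = k → CloseAt K ε T α

theorem D_norm_le {n k : ℕ} {S : Submodule ℝ (Tup n k)} (w : Sp S) (α : Mi n k) :
    ‖w.D α‖ ≤ ‖w‖ :=
  norm_le_pi_norm (show Mi n k → Linf n from (show S from w).1) α

theorem norm_lt_of_D {n k : ℕ} {S : Submodule ℝ (Tup n k)} (w : Sp S) {ε : ℝ} (hε : 0 < ε)
    (h : ∀ α : Mi n k, ‖w.D α‖ < ε) : ‖w‖ < ε :=
  (pi_norm_lt_iff (x := (show Mi n k → Linf n from (show S from w).1)) hε).2 h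

theorem D_zero {n k : ℕ} {S : Submodule ℝ (Tup n k)} (hS : IsSobolev S) (w : Sp S) (α : Mi n k)
    (hα : k < order α) : w.D α = 0 :=
  ((hS (show S from w).1).1 (show S from w).2).1 α hα

theorem top_iff {n k : ℕ} {S : Submodule ℝ (Tup n k)} (hS : IsSobolev S) (K : Set (Sp S))
    (hK : IsCompact K) : ApproxOn K ↔ TopApproxOn K := by
  constructor
  · intro h ε hε
    obtain ⟨T, h1, h2⟩ := h ε hε
    exact ⟨T, h1, fun α _ u hu => lt_of_le_of_lt (D_norm_le (T u - u) α) (h2 u hu)⟩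
  · intro h ε hε
    have hε3 : 0 < ε / 3 := by positivity
    obtain ⟨T', h1, h2⟩ := h (ε / 3) hε3
    have hc : Continuous fun u : Sp S => u - T' u := continuous_id.sub T'.continuous
    obtain ⟨T, h3, h4, h5, -, -⟩ := final' n k S hS ((fun u : Sp S => u - T' u) '' K)
      (hK.image hc) (ε / 3) hε3
    refine ⟨T' + T.comp (ContinuousLinearMap.id ℝ (Sp S) - T'), ?_, ?_⟩
    · have h6 : LinearMap.range ((T' + T.comp (ContinuousLinearMap.id ℝ (Sp S) - T') :
          Sp S →L[ℝ] Sp S) : Sp S →ₗ[ℝ] Sp S) ≤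
          LinearMap.range (T' : Sp S →ₗ[ℝ] Sp S) ⊔ LinearMap.range (T : Sp S →ₗ[ℝ] Sp S) := by
        rintro _ ⟨u, rfl⟩
        exact Submodule.add_mem_sup ⟨u, rfl⟩ ⟨u - T' u, rfl⟩
      have i1 : FiniteDimensional ℝ (LinearMap.range (T' : Sp S →ₗ[ℝ] Sp S)) := h1
      have i2 : FiniteDimensional ℝ (LinearMap.range (T : Sp S →ₗ[ℝ] Sp S)) := h3
      exact Submodule.finiteDimensional_of_le h6
    · intro u hu
      have h7 : (T' + T.comp (ContinuousLinearMap.id ℝ (Sp S) - T')) u - u =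
          T (u - T' u) - (u - T' u) := by
        change T' u + T (u - T' u) - u = T (u - T' u) - (u - T' u)
        abel
      rw [h7]
      have hv : u - T' u ∈ (fun u : Sp S => u - T' u) '' K := ⟨u, hu, rfl⟩
      refine norm_lt_of_D _ hε fun α => ?_
      have h8 : (T (u - T' u) - (u - T' u)).D α = (T (u - T' u)).D α - (u - T' u).D α := rfl
      rw [h8]
      rcases lt_trichotomy (order α) k with hα | hα | hα
      · exact lt_trans (h5 α hα _ hv) (by linarith)
      · have h9 : ‖(T (u - T' u)).D α‖ ≤ ‖(u - T' u).D α‖ + ε / 3 := h4 α _ hv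
        have h10 : ‖(T' u).D α - u.D α‖ < ε / 3 := h2 α hα u hu
        have h11 : ‖(u - T' u).D α‖ < ε / 3 := by
          have h12 : (u - T' u).D α = u.D α - (T' u).D α := rfl
          rw [h12, norm_sub_rev]
          exact h10
        calc ‖(T (u - T' u)).D α - (u - T' u).D α‖
            ≤ ‖(T (u - T' u)).D α‖ + ‖(u - T' u).D α‖ := norm_sub_le _ _
          _ < ε := by linarith
      · rw [D_zero hS _ α hα, D_zero hS _ α hα, sub_zero, norm_zero]
        exact hε

end WkInf
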